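import Mathlib

namespace Pool.Agent.H.MP_e338b6_co

open Sum

variable {V W : Type}

structure Crit (G : SimpleGraph V) : Prop where
  nc : ¬ ∃ c : V → Fin 9, ∀ u v, G.Adj u v → c u ≠ c v
  ec : ∀ x y, G.Adj x y → ∃ c : V → Fin 9, ∀ u v, G.Adj u v → s(u, v) ≠ s(x, y) → c u ≠ c v
  ni : ∀ v, ∃ w, G.Adj v w

def hrel (G1 : SimpleGraph V) (x y : V) (G2 : SimpleGraph (Option W)) (z : W) :
    V ⊕ W → V ⊕ W → Prop
  | inl u, inl v => G1.Adj u v ∧ s(u, v) ≠ s(x, y)
  | inr a, inr b => G2.Adj (some a) (some b)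
  | inl u, inr b => (u = x ∧ G2.Adj none (some b) ∧ b ≠ z) ∨ (u = y ∧ b = z)
  | inr b, inl u => (u = x ∧ G2.Adj none (some b) ∧ b ≠ z) ∨ (u = y ∧ b = z)

/-- the Hajos construction -/
def haj (G1 : SimpleGraph V) (x y : V) (G2 : SimpleGraph (Option W)) (z : W) :
    SimpleGraph (V ⊕ W) where
  Adj := hrel G1 x y G2 z
  symm := ⟨by
    rintro (u | a) (v | b) h
    · exact ⟨h.1.symm, by rw [Sym2.eq_swap]; exact h.2⟩
    · exact h
    · exact h
    · exact G2.adj_symm h⟩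
  loopless := ⟨by
    rintro (u | a) h
    · exact h.1.ne rfl
    · exact G2.ne_of_adj h rfl⟩

theorem forced {G : SimpleGraph V} (h : Crit G) {x y : V} {c : V → Fin 9}
    (hc : ∀ u v, G.Adj u v → s(u, v) ≠ s(x, y) → c u ≠ c v) : c x = c y := by
  by_contra hne
  refine h.nc ⟨c, fun u v huv => ?_⟩
  by_cases e : s(u, v) = s(x, y)
  · rcases Sym2.eq_iff.1 e with ⟨rfl, rfl⟩ | ⟨rfl, rfl⟩
    exacts [hne, Ne.symm hne]
  · exact hc u v huv e

theorem glue {G1 : SimpleGraph V} {x y : V} {G2 : SimpleGraph (Option W)} {z : W}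
    (c1 : V → Fin 9) (c2 : Option W → Fin 9) (e : Sym2 (V ⊕ W))
    (h1 : ∀ u v, G1.Adj u v → s(u, v) ≠ s(x, y) → s(inl u, inl v) ≠ e → c1 u ≠ c1 v)
    (h2 : ∀ a b, G2.Adj (some a) (some b) → s(inr a, inr b) ≠ e → c2 (some a) ≠ c2 (some b))
    (h3 : ∀ b, G2.Adj none (some b) → b ≠ z → s(inl x, inr b) ≠ e → c2 none ≠ c2 (some b))
    (h4 : s(inl y, inr z) ≠ e → (c1 x = c1 y ∧ c2 none ≠ c2 (some z)) ∨
      (c1 x ≠ c1 y ∧ c2 none = c2 (some z))) :
    ∃ c : V ⊕ W → Fin 9, ∀ p q, (haj G1 x y G2 z).Adj p q → s(p, q) ≠ e → c p ≠ c q := by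
  obtain ⟨σ, hσ⟩ : ∃ σ : Equiv.Perm (Fin 9), σ (c2 none) = c1 x := ⟨Equiv.swap _ _, Equiv.swap_apply_left _ _⟩
  have cross : ∀ u b, ((u = x ∧ G2.Adj none (some b) ∧ b ≠ z) ∨ (u = y ∧ b = z)) →
      s(inl u, inr b) ≠ e → c1 u ≠ σ (c2 (some b)) := by
    rintro u b (⟨rfl, h, h'⟩ | ⟨rfl, rfl⟩) he
    · rw [← hσ]; exact fun e' => h3 b h h' he (σ.injective e')
    · rcases h4 he with ⟨a1, a2⟩ | ⟨a1, a2⟩
      · rw [← a1, ← hσ]; exact fun e' => a2 (σ.injective e')
      · rw [← a2, hσ]; exact a1.symm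
  refine ⟨Sum.elim c1 (fun w => σ (c2 (some w))), ?_⟩
  rintro (u | a) (v | b) h he
  · exact h1 u v h.1 h.2 he
  · exact cross u b h he
  · exact (cross v a h (by rwa [Sym2.eq_swap])).symm
  · exact fun e' => h2 a b h he (σ.injective e')

theorem crit_haj {G1 : SimpleGraph V} {x y : V} {G2 : SimpleGraph (Option W)} {z : W}
    (h1 : Crit G1) (h2 : Crit G2) (hxy : G1.Adj x y) (hz : G2.Adj none (some z))
    (hw : ∃ w, w ≠ z ∧ G2.Adj none (some w)) : Crit (haj G1 x y G2 z) := by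
  obtain ⟨d1, hd1⟩ := h1.ec x y hxy
  obtain ⟨d2, hd2⟩ := h2.ec _ _ hz
  have f1 := forced h1 hd1
  have f2 := forced h2 hd2
  have left : ∀ u v, G1.Adj u v → s(u, v) ≠ s(x, y) → ∃ c : V ⊕ W → Fin 9, ∀ p q,
      (haj G1 x y G2 z).Adj p q → s(p, q) ≠ s(inl u, inl v) → c p ≠ c q := by
    intro u v huv hne
    obtain ⟨c, hc⟩ := h1.ec u v huv
    refine glue c d2 _ (fun a b hab _ h => hc a b hab (fun e => h ?_))
      (fun a b hab _ => hd2 _ _ hab (by simp)) (fun b hb hbz _ => hd2 _ _ hb (by simpa using hbz))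
      (fun _ => Or.inr ⟨hc x y hxy hne.symm, f2⟩)
    simpa [Sym2.eq_iff] using e
  have right : ∀ (a b : Option W) (e : Sym2 (V ⊕ W)), G2.Adj a b → s(a, b) ≠ s(none, some z) →
      (∀ a' b', s(some a', some b') = s(a, b) → s(inr a', inr b') = e) →
      (∀ b', s(none, some b') = s(a, b) → s(inl x, inr b') = e) →
      ∃ c : V ⊕ W → Fin 9, ∀ p q, (haj G1 x y G2 z).Adj p q → s(p, q) ≠ e → c p ≠ c q := by
    intro a b e hab hne g1 g2
    obtain ⟨c, hc⟩ := h2.ec a b hab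
    exact glue d1 c _ (fun u v huv h _ => hd1 u v huv h)
      (fun a' b' h h' => hc _ _ h (fun e' => h' (g1 _ _ e')))
      (fun b' h _ h' => hc _ _ h (fun e' => h' (g2 _ e')))
      (fun _ => Or.inl ⟨f1, hc _ _ hz hne.symm⟩)
  have cross : ∀ u b, ((u = x ∧ G2.Adj none (some b) ∧ b ≠ z) ∨ (u = y ∧ b = z)) →
      ∃ c : V ⊕ W → Fin 9, ∀ p q, (haj G1 x y G2 z).Adj p q → s(p, q) ≠ s(inl u, inr b) →
        c p ≠ c q := by
    rintro u b (⟨rfl, h, h'⟩ | ⟨rfl, rfl⟩)
    · exact right none (some b) _ h (by simpa using h') (by simp) (by simp)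
    · exact glue d1 d2 _ (fun u v huv h _ => hd1 u v huv h)
        (fun a b hab _ => hd2 _ _ hab (by simp)) (fun b hb hbz _ => hd2 _ _ hb (by simpa using hbz))
        (fun h => absurd rfl h)
  refine ⟨?_, ?_, ?_⟩
  · rintro ⟨c, hc⟩
    have e1 : c (inl x) = c (inl y) :=
      forced h1 (c := fun v => c (inl v)) (fun u v huv h => hc _ _ ⟨huv, h⟩)
    have e2 : c (inl x) = c (inr z) := by
      refine forced h2 (x := none) (y := some z)
        (c := fun o => Option.elim o (c (inl x)) (fun w => c (inr w))) ?_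
      rintro (_ | a) (_ | b) hab h
      · exact absurd rfl hab.ne
      · exact hc (inl x) (inr b) (Or.inl ⟨rfl, hab, by simpa using h⟩)
      · exact hc (inr a) (inl x) (Or.inl ⟨rfl, hab.symm, by simpa using h⟩)
      · exact hc (inr a) (inr b) hab
    exact hc (inl y) (inr z) (Or.inr ⟨rfl, rfl⟩) (e1.symm.trans e2)
  · rintro (u | a) (v | b) h
    · exact left u v h.1 h.2
    · exact cross u b h
    · rw [Sym2.eq_swap]; exact cross v a h
    · exact right (some a) (some b) _ h (by simp) (by simp) (by simp)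
  · rintro (v | a)
    · by_cases hv : v = x
      · obtain ⟨w, hw1, hw2⟩ := hw
        exact ⟨inr w, Or.inl ⟨hv, hw2, hw1⟩⟩
      · obtain ⟨w, hw⟩ := h1.ni v
        by_cases e : s(v, w) = s(x, y)
        · rcases Sym2.eq_iff.1 e with ⟨rfl, rfl⟩ | ⟨rfl, rfl⟩
          · exact absurd rfl hv
          · exact ⟨inr z, Or.inr ⟨rfl, rfl⟩⟩
        · exact ⟨inl w, hw, e⟩
    · obtain ⟨b, hb⟩ := h2.ni (some a)
      rcases b with _ | b
      · by_cases e : a = z
        · exact ⟨inl y, Or.inr ⟨rfl, e⟩⟩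
        · exact ⟨inl x, Or.inl ⟨rfl, hb.symm, e⟩⟩
      · exact ⟨inr b, hb⟩

def NoK (R : V → V → Prop) : Prop :=
  ∀ s : Finset V, s.card = 9 → ¬ ∀ u ∈ s, ∀ v ∈ s, u ≠ v → R u v

theorem pull {A B : Type} (f : A → B) (hf : Function.Injective f) (s : Finset B)
    (h : ∀ p ∈ s, ∃ a, f a = p) : ∃ t : Finset A, t.card = s.card ∧ ∀ a ∈ t, f a ∈ s := by
  classical
  refine ⟨s.preimage f hf.injOn, ?_, fun a ha => Finset.mem_preimage.1 ha⟩
  rw [Finset.card_preimage, Finset.filter_true_of_mem]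
  exact fun p hp => h p hp

def phi (x : V) : Option W → V ⊕ W := fun o => Option.elim o (inl x) inr

theorem nok_haj {G1 : SimpleGraph V} {x y : V} {G2 : SimpleGraph (Option W)} {z : W}
    (hxy : G1.Adj x y) (R : V ⊕ W → V ⊕ W → Prop)
    (h1 : NoK (fun u v => G1.Adj u v ∧ s(u, v) ≠ s(x, y)))
    (h2 : NoK (fun a b => G2.Adj a b ∧ s(a, b) ≠ s(none, some z) ∧ R (phi x a) (phi x b))) :
    NoK (fun p q => (haj G1 x y G2 z).Adj p q ∧ R p q) := by
  classical
  intro s hs hcl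
  by_cases hA : ∀ p ∈ s, ∃ v, inl v = p
  · obtain ⟨t, ht, ht'⟩ := pull inl inl_injective s hA
    exact h1 t (ht.trans hs) (fun u hu v hv huv =>
      (hcl _ (ht' u hu) _ (ht' v hv) (fun e => huv (inl_injective e))).1)
  by_cases hB : ∀ p ∈ s, ∃ o, phi x o = p
  · have hinj : Function.Injective (phi x : Option W → V ⊕ W) := by
      rintro (_ | a) (_ | b) h <;> simp_all [phi]
    obtain ⟨t, ht, ht'⟩ := pull _ hinj s hB
    refine h2 t (ht.trans hs) (fun a ha b hb hab => ?_)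
    obtain ⟨k1, k2⟩ := hcl _ (ht' a ha) _ (ht' b hb) (fun e => hab (hinj e))
    rcases a with _ | a <;> rcases b with _ | b
    · exact absurd rfl hab
    · rcases k1 with ⟨-, h, h'⟩ | ⟨h, -⟩
      · exact ⟨h, by simpa using h', k2⟩
      · exact absurd h hxy.ne
    · rcases k1 with ⟨-, h, h'⟩ | ⟨h, -⟩
      · exact ⟨h.symm, by simpa using h', k2⟩
      · exact absurd h hxy.ne
    · exact ⟨k1, by simp, k2⟩
  push Not at hA hB
  obtain ⟨p, hp, hp'⟩ := hA
  obtain ⟨q, hq, hq'⟩ := hB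
  rcases p with v | w
  · exact hp' v rfl
  rcases q with v | w'
  swap
  · exact hq' (some w') rfl
  have hvx : v ≠ x := fun e => hq' none (by rw [e]; rfl)
  have k := (hcl _ hq _ hp (by simp)).1
  rcases k with ⟨h, -⟩ | ⟨rfl, rfl⟩
  · exact hvx h
  have hsub : s ⊆ {inl v, inr w} := by
    rintro (u | b) hr
    · have k := (hcl _ hr _ hp (by simp)).1
      rcases k with ⟨-, -, h⟩ | ⟨rfl, -⟩
      · exact absurd rfl h
      · simp
    · have k := (hcl _ hq _ hr (by simp)).1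
      rcases k with ⟨h, -⟩ | ⟨-, rfl⟩
      · exact absurd h hvx
      · simp
  have := (Finset.card_le_card hsub).trans Finset.card_le_two
  omega

open Classical in
noncomputable def D [Fintype V] (G : SimpleGraph V) : ℕ := ∑ u, ∑ v, if G.Adj u v then 1 else 0

theorem D_haj [Fintype V] [Fintype W] {G1 : SimpleGraph V} {x y : V}
    {G2 : SimpleGraph (Option W)} {z : W} (hxy : G1.Adj x y) (hz : G2.Adj none (some z)) :
    D (haj G1 x y G2 z) + 2 = D G1 + D G2 := by
  classical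
  have hne := hxy.ne
  have a1 : ∀ u v, (if G1.Adj u v then 1 else 0 : ℕ) =
      (if (haj G1 x y G2 z).Adj (inl u) (inl v) then 1 else 0) +
        ((if v = y then (if u = x then 1 else 0) else 0) +
          (if v = x then (if u = y then 1 else 0) else 0)) := by
    intro u v
    have : (haj G1 x y G2 z).Adj (inl u) (inl v) ↔ G1.Adj u v ∧ s(u, v) ≠ s(x, y) := Iff.rfl
    simp only [this, ne_eq, Sym2.eq_iff]
    have := hxy.symm
    split_ifs <;> simp_all
  have a2 : ∀ u b, (if (haj G1 x y G2 z).Adj (inl u) (inr b) then 1 else 0 : ℕ) =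
      (if u = x then (if G2.Adj none (some b) ∧ b ≠ z then 1 else 0) else 0) +
        (if u = y then (if b = z then 1 else 0) else 0) := by
    intro u b
    have : (haj G1 x y G2 z).Adj (inl u) (inr b) ↔
      (u = x ∧ G2.Adj none (some b) ∧ b ≠ z) ∨ (u = y ∧ b = z) := Iff.rfl
    simp only [this]
    split_ifs <;> simp_all
  have a3 : ∀ b, (if G2.Adj none (some b) then 1 else 0 : ℕ) =
      (if G2.Adj none (some b) ∧ b ≠ z then 1 else 0) + (if b = z then 1 else 0) := by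
    intro b
    split_ifs <;> simp_all
  have a4 : ∀ u b, (if (haj G1 x y G2 z).Adj (inr b) (inl u) then 1 else 0 : ℕ) =
      if (haj G1 x y G2 z).Adj (inl u) (inr b) then 1 else 0 := fun u b => rfl
  have a5 : ∀ a b, (if (haj G1 x y G2 z).Adj (inr a) (inr b) then 1 else 0 : ℕ) =
      if G2.Adj (some a) (some b) then 1 else 0 := fun a b => rfl
  have a6 : ∀ a, (if G2.Adj (some a) none then 1 else 0 : ℕ) =
      if G2.Adj none (some a) then 1 else 0 := fun a => by simp only [G2.adj_comm]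
  have s2 : ∑ b, ∑ u, (if (haj G1 x y G2 z).Adj (inl u) (inr b) then 1 else 0 : ℕ) =
      ∑ b, (if G2.Adj none (some b) then 1 else 0 : ℕ) := by
    refine Finset.sum_congr rfl (fun b _ => ?_)
    simp only [a2, Finset.sum_add_distrib, Finset.sum_ite_eq', Finset.mem_univ, if_true, a3 b]
  have s1 : D G1 = ∑ u, ∑ v, (if (haj G1 x y G2 z).Adj (inl u) (inl v) then 1 else 0 : ℕ) + 2 := by
    unfold D
    simp only [a1, Finset.sum_add_distrib, Finset.sum_ite_eq', Finset.mem_univ, if_true]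
  rw [s1]
  unfold D
  simp only [Fintype.sum_sum_type, Fintype.sum_option, Finset.sum_add_distrib, a4, a5, a6,
    SimpleGraph.irrefl, if_false]
  rw [Finset.sum_comm (f := fun u b => if (haj G1 x y G2 z).Adj (inl u) (inr b) then 1 else 0), s2]
  ring

theorem D_eq [Fintype V] (G : SimpleGraph V) : D G = 2 * Nat.card G.edgeSet := by
  classical
  rw [Nat.card_eq_fintype_card, ← SimpleGraph.edgeFinset_card,
    ← SimpleGraph.sum_degrees_eq_twice_card_edges]
  unfold D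
  refine Finset.sum_congr rfl (fun u _ => ?_)
  rw [← SimpleGraph.card_neighborFinset_eq_degree, SimpleGraph.neighborFinset_eq_filter,
    Finset.card_filter]

end Pool.Agent.H.MP_e338b6_co
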