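import Mathlib
import Pool.Agent.H.MP_e338b6_co.A

namespace Pool.Agent.H.MP_e338b6_co

open Sum

def ix : Option (Fin 11) → Fin 12 := fun o => Option.elim o 0 Fin.succ

def adj0 (u v : Fin 12) : Bool :=
  u.val != v.val && (u.val < 7 || v.val < 7 || (u.val + 1 == v.val) || (v.val + 1 == u.val) ||
    (u.val + 4 == v.val) || (v.val + 4 == u.val))

/-- the join of a 7-clique and a 5-cycle -/
def G0 : SimpleGraph (Option (Fin 11)) where
  Adj a b := adj0 (ix a) (ix b) = true
  symm := ⟨by decide +kernel⟩
  loopless := ⟨by decide +kernel⟩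

instance : DecidableRel G0.Adj := fun a b => inferInstanceAs (Decidable (adj0 (ix a) (ix b) = true))

def colN (a b v : ℕ) : ℕ :=
  if b < 7 then (if v < 7 then (if v = b then a else v) else if v = 11 then b else 7 + v % 2)
  else if v < 7 then v
  else if a < 7 then (if v = b then a else 7 + (v + 5 - b) % 5 % 2)
  else 7 + (v + 5 - (if b = a + 1 then b else a)) % 5 % 2

def col (x y v : Fin 12) : Fin 9 :=
  ⟨colN (min x.val y.val) (max x.val y.val) v.val % 9, Nat.mod_lt _ (by norm_num)⟩

theorem cols_ok : ∀ x y : Fin 12, adj0 x y = true → ∀ u v, adj0 u v = true →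
    (u = x ∧ v = y) ∨ (u = y ∧ v = x) ∨ col x y u ≠ col x y v := by decide +kernel

theorem ix_inj : Function.Injective ix := by decide +kernel

theorem crit0 : Crit G0 := by
  refine ⟨?_, ?_, by decide +kernel⟩
  · rintro ⟨c, hc⟩
    have hinj : Function.Injective (fun i : Fin 9 => c (![none, some 0, some 1, some 2, some 3,
        some 4, some 5, some 6, some 7] i)) := by
      intro i j hij
      by_contra hne
      refine hc _ _ ?_ hij
      clear hij
      revert i j
      decide +kernel
    have hs := Finite.surjective_of_injective hinj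
    have two : ∀ v : Fin 11, 6 ≤ v.val → c (some v) = c (some 6) ∨ c (some v) = c (some 7) := by
      intro v hv
      obtain ⟨i, hi⟩ := hs (c (some v))
      have key : ∀ (v : Fin 11) (i : Fin 9), 6 ≤ v.val → i = 7 ∨ i = 8 ∨
          G0.Adj (![none, some 0, some 1, some 2, some 3, some 4, some 5, some 6, some 7] i)
            (some v) := by decide +kernel
      rcases key v i hv with rfl | rfl | h
      · exact Or.inl hi.symm
      · exact Or.inr hi.symm
      · exact absurd hi (hc _ _ h)
    have t8 := two 8 (by decide)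
    have t9 := two 9 (by decide)
    have t10 := two 10 (by decide)
    have a1 := hc (some 7) (some 8) (by decide)
    have a2 := hc (some 8) (some 9) (by decide)
    have a3 := hc (some 9) (some 10) (by decide)
    have a4 := hc (some 10) (some 6) (by decide)
    grind
  · intro x y hxy
    have hc := cols_ok _ _ hxy
    refine ⟨fun o => col (ix x) (ix y) (ix o), fun u v huv hne => ?_⟩
    rcases hc _ _ huv with ⟨h1, h2⟩ | ⟨h1, h2⟩ | h
    · exact absurd (by rw [ix_inj h1, ix_inj h2]) hne
    · exact absurd (by rw [ix_inj h1, ix_inj h2, Sym2.eq_swap]) hne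
    · exact h

theorem ind {V : Type} [Fintype V] [DecidableEq V] (s : Finset V) :
    ∃ n : V → ℕ, ∑ v, n v = s.card ∧ (∀ v, n v ≤ 1) ∧
      ∀ a b, ¬ (a ∈ s ∧ b ∈ s) → n a + n b ≤ 1 := by
  refine ⟨fun v => if v ∈ s then 1 else 0, by simp, fun v => by beta_reduce; split_ifs <;> simp,
    fun a b h => ?_⟩
  beta_reduce
  split_ifs <;> simp_all

theorem nok0 : NoK (fun u v => G0.Adj u v ∧ s(u, v) ≠ s(none, some 0)) := by
  intro s hs h
  obtain ⟨n, h1, h2, h3⟩ := ind s
  have p0 := h3 none (some 0) (fun ⟨a, b⟩ => (h _ a _ b (by simp)).2 rfl)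
  have q : ∀ a b : Fin 11, a ≠ b → ¬ G0.Adj (some a) (some b) → n (some a) + n (some b) ≤ 1 :=
    fun a b hab hn => h3 _ _ (fun ⟨ha, hb⟩ => hn (h _ ha _ hb (by simpa using hab)).1)
  have p1 := q 6 8 (by decide) (by decide)
  have p2 := q 6 9 (by decide) (by decide)
  have p3 := q 7 9 (by decide) (by decide)
  have p4 := q 7 10 (by decide) (by decide)
  have p5 := q 8 10 (by decide) (by decide)
  have := h2 (some 1)
  have := h2 (some 2)
  have := h2 (some 3)
  have := h2 (some 4)
  have := h2 (some 5)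
  have e : ∑ v, n v = n none + (n (some 0) + n (some 1) + n (some 2) + n (some 3) + n (some 4) +
      n (some 5) + n (some 6) + n (some 7) + n (some 8) + n (some 9) + n (some 10)) := by
    rw [Fintype.sum_option]
    simp only [Fin.sum_univ_succ, Fin.sum_univ_zero]
    simp only [add_assoc, add_zero]
    rfl
  omega

theorem D0 : D G0 = 122 := by
  have : (∑ u, ∑ v, if G0.Adj u v then 1 else 0 : ℕ) = 122 := by decide +kernel
  rw [← this]
  unfold D
  congr!

def K10 : SimpleGraph (Option (Fin 9)) := ⊤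

theorem critK : Crit K10 := by
  refine ⟨?_, ?_, ?_⟩
  · rintro ⟨c, hc⟩
    have hinj : Function.Injective c := fun u v h => by
      by_contra hne
      exact hc u v hne h
    have := Fintype.card_le_of_injective c hinj
    simp at this
  · intro x y hxy
    have hne : x ≠ y := hxy
    obtain ⟨e⟩ : Nonempty ({v : Option (Fin 9) // v ≠ y} ≃ Fin 9) :=
      ⟨Fintype.equivFinOfCardEq (by simp)⟩
    refine ⟨fun v => if h : v = y then e ⟨x, hne⟩ else e ⟨v, h⟩, fun u v huv hs => ?_⟩
    have huv' : u ≠ v := huv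
    simp only [ne_eq, Sym2.eq_iff] at hs
    by_cases h1 : u = y <;> by_cases h2 : v = y
    · exact absurd (h1.trans h2.symm) huv'
    · simp only [dif_pos h1, dif_neg h2, ne_eq, EmbeddingLike.apply_eq_iff_eq, Subtype.mk.injEq]
      tauto
    · simp only [dif_pos h2, dif_neg h1, ne_eq, EmbeddingLike.apply_eq_iff_eq, Subtype.mk.injEq]
      tauto
    · simp only [dif_neg h2, dif_neg h1, ne_eq, EmbeddingLike.apply_eq_iff_eq, Subtype.mk.injEq]
      exact huv'
  · rintro (_ | a)
    · exact ⟨some 0, by simp [K10]⟩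
    · exact ⟨none, by simp [K10]⟩

theorem DK : D K10 = 90 := by
  have : (∑ u : Option (Fin 9), ∑ v : Option (Fin 9), if u ≠ v then 1 else 0 : ℕ) = 90 := by
    decide +kernel
  rw [← this]
  unfold D
  congr!

theorem nokK {V : Type} (x : V) : NoK (fun a b : Option (Fin 9) => K10.Adj a b ∧
    s(a, b) ≠ s(none, some 0) ∧ s(phi x a, phi x b) ≠ s(inr 1, inr 2)) := by
  intro s hs h
  obtain ⟨n, h1, h2, h3⟩ := ind s
  have p0 := h3 none (some 0) (fun ⟨a, b⟩ => (h _ a _ b (by simp)).2.1 rfl)
  have p1 := h3 (some 1) (some 2) (fun ⟨a, b⟩ => (h _ a _ b (by simp)).2.2 rfl)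
  have := h2 (some 3)
  have := h2 (some 4)
  have := h2 (some 5)
  have := h2 (some 6)
  have := h2 (some 7)
  have := h2 (some 8)
  have e : ∑ v, n v = n none + (n (some 0) + n (some 1) + n (some 2) + n (some 3) + n (some 4) +
      n (some 5) + n (some 6) + n (some 7) + n (some 8)) := by
    rw [Fintype.sum_option]
    simp only [Fin.sum_univ_succ, Fin.sum_univ_zero]
    simp only [add_assoc, add_zero]
    rfl
  omega

theorem chain (j : ℕ) : ∃ (V : Type) (_ : Fintype V) (G : SimpleGraph V) (x y : V),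
    G.Adj x y ∧ Crit G ∧ NoK (fun u v => G.Adj u v ∧ s(u, v) ≠ s(x, y)) ∧
      Fintype.card V = 12 + 9 * j ∧ D G = 122 + 88 * j := by
  induction j with
  | zero => exact ⟨_, inferInstance, G0, none, some 0, by decide, crit0, nok0, by simp, D0⟩
  | succ j ih =>
    obtain ⟨V, _, G, x, y, h1, h2, h3, h4, h5⟩ := ih
    have hz : K10.Adj none (some 0) := by simp [K10]
    refine ⟨V ⊕ Fin 9, inferInstance, haj G x y K10 0, inr 1, inr 2, ?_,
      crit_haj h2 critK h1 hz ⟨1, by decide, by simp [K10]⟩,
      nok_haj h1 (fun p q => s(p, q) ≠ s(inr 1, inr 2)) h3 (nokK x), ?_, ?_⟩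
    · show K10.Adj (some 1) (some 2)
      simp [K10]
    · simp only [Fintype.card_sum, h4, Fintype.card_fin]; ring
    · have := D_haj h1 hz
      rw [DK, h5] at this
      omega

theorem final : ∃ (V : Type) (_ : Fintype V) (G : SimpleGraph V),
    Crit G ∧ NoK G.Adj ∧ Fintype.card V = 176 ∧ Nat.card G.edgeSet = 869 := by
  obtain ⟨V, _, G, x, y, h1, h2, h3, h4, h5⟩ := chain 17
  have hz : G0.Adj none (some 0) := by decide
  refine ⟨V ⊕ Fin 11, inferInstance, haj G x y G0 0,
    crit_haj h2 crit0 h1 hz ⟨1, by decide, by decide⟩, ?_, ?_, ?_⟩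
  · have := nok_haj h1 (G2 := G0) (z := 0) (fun _ _ => True) h3 (by simpa using nok0)
    simpa using this
  · simp only [Fintype.card_sum, h4, Fintype.card_fin]
  · have := D_haj h1 hz
    rw [D0, h5, D_eq] at this
    omega

end Pool.Agent.H.MP_e338b6_co
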